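import Pool.Agent.W325.KZ.Defs

/-! KZ-ALT (helper782): sign changes give zeros; simplicity of the zeros. -/

set_option autoImplicit false

open Finset Filter Topology

namespace Pool.Agent.W782.KZ

open Pool.Agent.W325.KZ

theorem alt : S_ALT := by
  intro f y J hJ hy hf hs
  have key : ∀ j, ∃ z, 1 ≤ j → j + 1 ≤ J → z ∈ Set.Ioo (y j) (y (j + 1)) ∧ f z = 0 := by
    intro j
    by_cases hj : 1 ≤ j ∧ j + 1 ≤ J
    · have h1 := hs j hj.1 (by omega)
      have h2 := hs (j + 1) (by omega) hj.2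
      have hsub : Set.Icc (y j) (y (j + 1)) ⊆ Set.Icc (y 1) (y J) :=
        Set.Icc_subset_Icc (hy.monotone hj.1) (hy.monotone hj.2)
      have hg : ContinuousOn (fun x => (-1 : ℝ) ^ j * f x) (Set.Icc (y j) (y (j + 1))) :=
        continuousOn_const.mul (hf.mono hsub)
      have h3 : (-1 : ℝ) ^ j * f (y (j + 1)) < 0 := by
        rw [pow_succ] at h2
        linarith
      obtain ⟨z, hz, hz0⟩ := intermediate_value_Ioo' (hy (Nat.lt_succ_self j)).le hg
        ⟨h3, h1⟩
      refine ⟨z, fun _ _ => ⟨hz, ?_⟩⟩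
      rcases mul_eq_zero.1 hz0 with h | h
      · exact absurd h (pow_ne_zero _ (by norm_num))
      · exact h
    · exact ⟨0, fun h1 h2 => absurd ⟨h1, h2⟩ hj⟩
  choose z hz using key
  have hlt : ∀ j l, 1 ≤ j → j < l → l + 1 ≤ J → z j < z l := by
    intro j l h1 h2 h3
    have h4 := (hz j h1 (by omega)).1.2
    have h5 := (hz l (by omega) h3).1.1
    have h6 : y (j + 1) ≤ y l := hy.monotone h2
    linarith
  refine ⟨(Finset.Ico 1 J).image z, ?_, ?_⟩
  · rw [Finset.card_image_of_injOn, Nat.card_Ico]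
    intro j hj l hl hjl
    rw [Finset.coe_Ico, Set.mem_Ico] at hj hl
    rcases lt_trichotomy j l with h | h | h
    · have := hlt j l hj.1 h (by omega)
      rw [hjl] at this
      exact absurd this (lt_irrefl _)
    · exact h
    · have := hlt l j hl.1 h (by omega)
      rw [hjl] at this
      exact absurd this (lt_irrefl _)
  · intro x hx
    obtain ⟨j, hj, rfl⟩ := Finset.mem_image.1 hx
    rw [Finset.mem_Ico] at hj
    obtain ⟨h1, h2⟩ := hz j hj.1 (by omega)
    refine ⟨⟨?_, ?_⟩, h2⟩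
    · exact (hy.monotone hj.1).trans h1.1.le
    · exact h1.2.le.trans (hy.monotone (by omega))

theorem rv_eq (a : ℕ → ℝ) (n : ℕ) {t : ℝ} (ht : t ≠ 0) :
    pol (rv a n) n t = t ^ (n - 1) * pol a n t⁻¹ := by
  unfold pol rv
  rw [← Finset.sum_range_reflect, Finset.mul_sum]
  refine Finset.sum_congr rfl fun k hk => ?_
  rw [Finset.mem_range] at hk
  have e1 : n - 1 - (n - 1 - k) = k := by omega
  rw [e1]
  have e2 : t ^ (n - 1) = t ^ (n - 1 - k) * t ^ k := by rw [← pow_add]; congr 1; omega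
  rw [e2, inv_pow]
  field_simp

theorem pol_diff (a : ℕ → ℝ) (n : ℕ) : Differentiable ℝ (pol a n) := by
  unfold pol
  fun_prop

theorem simp : S_SIMP := by
  intro a n hn h1 h2 x hx hd
  rcases le_or_gt |x| 1 with hle | hgt
  · exact h1 ⟨x, by rw [sub_self]; exact abs_nonneg x, hle, hd, by rw [hx, abs_zero]⟩
  · have hx0 : x ≠ 0 := by
      rintro rfl
      rw [abs_zero] at hgt
      linarith
    have hy0 : x⁻¹ ≠ 0 := inv_ne_zero hx0
    apply h2
    refine ⟨x⁻¹, by rw [sub_self]; exact abs_nonneg _, ?_, ?_, ?_⟩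
    · rw [abs_inv]
      exact inv_le_one_of_one_le₀ hgt.le
    · have hP : HasDerivAt (pol a n) 0 (x⁻¹)⁻¹ := by
        rw [inv_inv, ← hd]
        exact (pol_diff a n x).hasDerivAt
      have hI : HasDerivAt (fun t : ℝ => t⁻¹) (-((x⁻¹) ^ 2)⁻¹) x⁻¹ := hasDerivAt_inv hy0
      have hC : HasDerivAt (fun t : ℝ => pol a n t⁻¹) (0 * -((x⁻¹) ^ 2)⁻¹) x⁻¹ :=
        HasDerivAt.comp x⁻¹ hP hI
      have hM := (hasDerivAt_pow (n - 1) x⁻¹).mul hC
      rw [inv_inv, hx, mul_zero, zero_mul, mul_zero, add_zero] at hM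
      have hE : pol (rv a n) n =ᶠ[𝓝 x⁻¹] fun t => t ^ (n - 1) * pol a n t⁻¹ := by
        filter_upwards [isOpen_ne.mem_nhds hy0] with t ht
        exact rv_eq a n ht
      exact (hM.congr_of_eventuallyEq hE).deriv
    · rw [rv_eq a n hy0, inv_inv, hx, mul_zero, abs_zero]

end Pool.Agent.W782.KZ
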