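import Pool.Agent.W325.KZ.Defs

/-! KZ-ROOT (helper782): the multiset of roots and the zeros. -/

set_option autoImplicit false

open Finset Filter Topology

namespace Pool.Agent.W782.KZ

open Pool.Agent.W325.KZ

/-- the polynomial -/
noncomputable def pp (a : ℕ → ℝ) (n : ℕ) : Polynomial ℝ :=
  ∑ i ∈ range n, Polynomial.C (a i) * Polynomial.X ^ i

theorem pp_eval (a : ℕ → ℝ) (n : ℕ) (x : ℝ) : (pp a n).eval x = pol a n x := by
  simp [pp, pol, Polynomial.eval_finsetSum]

theorem pp_fun (a : ℕ → ℝ) (n : ℕ) : pol a n = fun x => (pp a n).eval x := by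
  funext x
  rw [pp_eval]

theorem pp_deriv (a : ℕ → ℝ) (n : ℕ) (x : ℝ) :
    (Polynomial.derivative (pp a n)).eval x = deriv (pol a n) x := by
  rw [pp_fun, Polynomial.deriv]

theorem NR_eq (a : ℕ → ℝ) (n : ℕ) : NR a n = (pp a n).roots.card := rfl

theorem root : S_ROOT := by
  intro a n k
  constructor
  · rintro ⟨i, hi, hai⟩ ⟨S, hS, hz⟩
    have hp : pp a n ≠ 0 := by
      intro h
      have := congrArg (fun q => Polynomial.coeff q i) h
      simp only [pp, Polynomial.finsetSum_coeff, Polynomial.coeff_C_mul, Polynomial.coeff_X_pow,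
        Polynomial.coeff_zero, mul_ite, mul_one, mul_zero] at this
      rw [Finset.sum_ite_eq, if_pos (mem_range.2 hi)] at this
      exact hai this
    rw [NR_eq]
    refine hS.trans (le_trans ?_ (Multiset.toFinset_card_le _))
    apply Finset.card_le_card
    intro x hx
    rw [Multiset.mem_toFinset, Polynomial.mem_roots hp, Polynomial.IsRoot, pp_eval]
    exact (hz x hx).2
  · intro h
    have hp : pp a n ≠ 0 := by
      intro h0
      have h1 : pol a n 0 = 0 := by rw [← pp_eval, h0, Polynomial.eval_zero]
      apply h 0 h1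
      rw [← pp_deriv, h0]
      simp
    have hnd : (pp a n).roots.Nodup := by
      rw [Multiset.nodup_iff_count_le_one]
      intro x
      rw [Polynomial.count_roots]
      by_contra hcon
      rw [not_le, Polynomial.one_lt_rootMultiplicity_iff_isRoot hp] at hcon
      obtain ⟨h1, h2⟩ := hcon
      rw [Polynomial.IsRoot, pp_eval] at h1
      rw [Polynomial.IsRoot, pp_deriv] at h2
      exact h x h1 h2
    refine ⟨(pp a n).roots.toFinset, ?_, ?_⟩
    · rw [Multiset.toFinset_card_of_nodup hnd, NR_eq]
    · intro x hx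
      rw [Multiset.mem_toFinset, Polynomial.mem_roots hp, Polynomial.IsRoot, pp_eval] at hx
      exact ⟨Set.mem_univ x, hx⟩

end Pool.Agent.W782.KZ
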